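import Pool.Agent.Lib.helper26.RSet

namespace Pool.Agent.Results.MP_b91784_pr.Fails
open Pool.Agent.Lib.helper26.RSet MeasureTheory ProbabilityTheory Metric Finset
open scoped Pointwise RealInnerProductSpace BoundedContinuousFunction

/-- Beck's B-convexity -/
def BConvex (E : Type) [NormedAddCommGroup E] [NormedSpace ℝ E] : Prop :=
  ∃ (k : ℕ) (ε : ℝ), 2 ≤ k ∧ 0 < ε ∧ ∀ x : Fin k → E, (∀ i, ‖x i‖ ≤ 1) →
    ∃ s : Fin k → ℝ, (∀ i, s i = 1 ∨ s i = -1) ∧ ‖∑ i, s i • x i‖ ≤ k * (1 - ε)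

lemma sc {C t : ℝ} {h : X → ℝ} (a : SL C h) (ht : 0 ≤ t) : SL (t * C) fun x => t * h x :=
  ⟨fun c x => by rw [a.hom]; ring, fun x y => by rw [← mul_add]; gcongr; exact a.add x y,
    fun x => mul_nonneg ht (a.nn x), fun x => by rw [mul_assoc]; gcongr; exact a.le x⟩

lemma up {C D : ℝ} {h : X → ℝ} (a : SL C h) (H : C ≤ D) : SL D h :=
  ⟨a.hom, a.add, a.nn, fun x => (a.le x).trans (by gcongr)⟩

lemma slu' (m j : ℕ) : SL ((1 / 2) ^ j) (u (j + m)) :=
  up (slu _) (pow_le_pow_of_le_one (by norm_num) (by norm_num) (by omega))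

lemma slc' (m n j : ℕ) : SL ((1 / 2) ^ j) fun x => if j = n then 0 else u (j + m) x := by
  split_ifs
  exacts [⟨by simp, by simp, by simp, fun x => by positivity⟩, slu' m j]

lemma slh' (m n : ℕ) (v : Fin (4 ^ (n + m))) : SL (1 / 3 * (1 + 2)) fun x =>
    1 / 3 * (q (n + m) v x + ∑' j, if j = n then 0 else u (j + m) x) :=
  sc ((slq _ v).plus (.tsum (slc' m n))) (by norm_num)

lemma slU (m : ℕ) : SL (1 / 3 * 2) fun x => 1 / 3 * ∑' j, u (j + m) x :=
  sc (.tsum (slu' m)) (by norm_num)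

theorem result : ∃ (E : Type) (_ : NormedAddCommGroup E) (_ : InnerProductSpace ℝ E)
    (_ : CompleteSpace E), BConvex E ∧ ∀ δ : ℝ, 0 < δ →
    ∃ (Ω : Type) (_ : MeasurableSpace Ω) (P : Measure Ω) (Ψ : ℕ → Ω → Set E) (U : Set E),
      IsProbabilityMeasure P ∧ RandomSets P Ψ U ∧ U ⊆ closedBall 0 δ ∧
      (∀ n ω, Ψ n ω ⊆ closedBall 0 1) ∧ ∀ ω, ∀ N : ℕ, 1 ≤ N →
        ∃ a ∈ (N : ℝ)⁻¹ • ∑ i ∈ range N, Ψ i ω, 1 / 6 ≤ ‖a‖ := by
  refine ⟨X, inferInstance, inferInstance, inferInstance, ⟨2, 1 / 4, le_rfl, by norm_num, fun x h => ?_⟩, fun δ hδ => ?_⟩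
  · by_contra! hc
    have c := hc ![1, 1] (by simp)
    have d := hc ![1, -1] (by simp)
    simp only [Fin.sum_univ_two, Matrix.cons_val_zero, Matrix.cons_val_one, one_smul,
      neg_smul, ← sub_eq_add_neg, Nat.cast_ofNat] at c d
    nlinarith [parallelogram_law_with_norm ℝ (x 0) (x 1), norm_nonneg (x 0), norm_nonneg (x 1),
      h 0, h 1]
  obtain ⟨m, hm⟩ := exists_pow_lt_of_lt_one hδ (show (1 / 2 : ℝ) < 1 by norm_num)
  have b1 : ∀ n (ω : Ω), K (fun x => 1 / 3 * (q (n + m) (ω (n + m)) x +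
      ∑' j, if j = n then 0 else u (j + m) x)) ⊆ closedBall 0 1 := fun n ω =>
    (up (slh' m n _) (by norm_num)).sub zero_le_one
  refine ⟨Ω, _, P, _, K fun x => 1 / 3 * ∑' j, u (j + m) x, inferInstance, ?_, ?_, b1,
    fun ω N hN => ?_⟩
  · let : MeasurableSpace (sphere (0 : StrongDual ℝ X) 1 →ᵇ ℝ) := borel _
    refine ⟨fun n ω => (slh' m n (ω (n + m))).z, (slU m).z, fun n ω => SL.rep _ (by norm_num),
      SL.rep _ (by norm_num), fun n => (measurable_of_finite fun v => (slh' m n v).z).comp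
        (measurable_pi_apply _), ?_, fun n => ?_, _, b1⟩
    · have I : iIndepFun (fun (n : ℕ) (ω : Ω) => ω n) P :=
        iIndepFun_infinitePi (X := fun _ v => v) fun n => measurable_id
      have J : iIndepFun (fun (n : ℕ) (ω : Ω) => ω (n + m)) P :=
        iIndepFun.precomp (g := fun n => n + m) (add_left_injective m) I
      exact J.comp (fun n v => (slh' m n v).z) fun n => measurable_of_finite _
    have M := measurePreserving_eval_infinitePi
      (fun n : ℕ => uniformOn (Set.univ : Set (Fin (4 ^ n)))) (n + m)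
    have i : Integrable (fun v => (slh' m n v).z) (uniformOn Set.univ) := .of_finite
    refine ⟨M.integrable_comp_of_integrable i, ?_⟩
    refine (integral_map M.aemeasurable (M.map_eq.symm ▸ i.1)).symm.trans ?_
    rw [M.map_eq, integral_fintype i]
    ext φ
    simp only [BoundedContinuousFunction.coe_sum, Finset.sum_apply,
      BoundedContinuousFunction.coe_smul, SL.z, BoundedContinuousFunction.coe_ofNormedAddCommGroup,
      measureReal_def, uniformOn_univ, smul_eq_mul]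
    rw [(SL.summable (slu' m) _).tsum_eq_add_tsum_ite n, u]
    simp [mul_add, sum_add_distrib, ← mul_sum, div_eq_inv_mul]
    field_simp
  · refine (SL.sub (C := δ) ⟨(slU m).hom, (slU m).add, (slU m).nn, fun x => ?_⟩ hδ.le)
    have := hasSum_le (fun j => ((slu (j + m)).le x).trans_eq (by rw [pow_add]))
      (SL.summable (slu' m) x).hasSum ((hasSum_geometric_two.mul_right _).mul_right _)
    nlinarith [norm_nonneg x, mul_le_mul_of_nonneg_right hm.le (norm_nonneg x),
      mul_nonneg hδ.le (norm_nonneg x)]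
  let l : ι := ⟨N + m, fun i => ω i⟩
  let e : X := lp.single 2 l 1
  have he : ‖e‖ = 1 := by simp [e, lp.norm_single]
  have hN' : (1 : ℝ) ≤ N := by exact_mod_cast hN
  choose a h1 h2 using fun i => (slh' m i (ω (i + m))).attain e
  refine ⟨_, Set.smul_mem_smul_set (Set.finsetSum_mem_finsetSum _ _ a fun i _ => h1 i), ?_⟩
  have b2 : (N : ℝ) / 2 ≤ ∑ i ∈ range N, q (i + m) (ω _) e := by
    refine le_trans ?_ (sum_le_sum_of_subset_of_nonneg (s := Ico (N / 2) N)
      (fun i hi => mem_range.2 (mem_Ico.1 hi).2) fun i _ _ => (slq _ _).nn e)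
    refine le_trans ?_ (card_nsmul_le_sum _ _ 1 fun i hi => ?_)
    · rw [Nat.card_Ico, nsmul_one, div_le_iff₀ two_pos]; norm_cast; omega
    · refine (abs_le_of_sq_le_sq' ?_ ((slq _ _).nn e)).2
      rw [q_sq]
      rw [mem_Ico] at hi
      refine le_trans (by simp [e]) (single_le_sum (fun _ _ => sq_nonneg _) (a := l) ?_)
      simp only [S, B, mem_filter, mem_sigma, mem_range, mem_univ, and_true]
      exact ⟨by simp only [l]; omega, by simp only [l]; omega, rfl⟩
  have b3 : 1 / 3 * ∑ i ∈ range N, q (i + m) (ω _) e ≤ ⟪e, ∑ i ∈ range N, a i⟫ := by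
    rw [inner_sum, mul_sum]
    refine sum_le_sum fun i _ => le_trans ?_ (h2 i).ge
    linarith [(SL.tsum (slc' m i)).nn e]
  have b4 := real_inner_le_norm e ((N : ℝ)⁻¹ • ∑ i ∈ range N, a i)
  rw [he, one_mul, inner_smul_right] at b4
  refine le_trans ?_ b4
  rw [← div_eq_inv_mul, le_div_iff₀ (by linarith)]; linarith

end Pool.Agent.Results.MP_b91784_pr.Fails
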